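import Pool.Agent.H81.LR.Step

/-! [H70 LR CoverLog] covering the coloops with `3 j (L + 1)` elements, `dim ≤ 3 j 2 ^ L`. -/

set_option linter.unusedSectionVars false

open Module Submodule H15 H81.WK H81.LR

namespace H70.LR

variable {ι : Type*} [Fintype ι] {E : Type*} [AddCommGroup E] [Module ℝ E]
  [FiniteDimensional ℝ E] {w : ι → E}

/-- the coloops of `C`. -/
def Co (w : ι → E) (C : Set ι) : Set ι := {e | e ∈ C ∧ cc w (Cᶜ ∪ {e}) ≠ 0}

theorem Co_sub (C : Set ι) : Co w C ⊆ C := fun _ h => h.1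

theorem cc_Co {C : Set ι} (hsp : cc w Cᶜ = 0) {R : Set ι} (hR : R ⊆ Co w C) :
    cc w (Cᶜ ∪ R) = R.ncard := by
  classical
  induction R, Set.toFinite R using Set.Finite.induction_on with
  | empty => simpa using hsp
  | @insert a t ha ht ih =>
    have h1 := ih fun i hi => hR (Or.inr hi)
    have h2 := cc_super w (Cᶜ ∪ t) (Cᶜ ∪ {a})
    have e1 : (Cᶜ ∪ t) ∪ (Cᶜ ∪ {a}) = Cᶜ ∪ insert a t := by
      ext i
      simp only [Set.mem_union, Set.mem_insert_iff, Set.mem_singleton_iff]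
      tauto
    have e2 : (Cᶜ ∪ t) ∩ (Cᶜ ∪ {a}) = Cᶜ := by
      ext i
      simp only [Set.mem_union, Set.mem_inter_iff, Set.mem_singleton_iff]
      constructor
      · rintro ⟨h | h, h' | h'⟩
        · exact h
        · exact h
        · exact h'
        · exact absurd (h' ▸ h) ha
      · intro h
        exact ⟨Or.inl h, Or.inl h⟩
    rw [e1, e2] at h2
    have h3 : cc w (Cᶜ ∪ {a}) ≠ 0 := (hR (Or.inl rfl)).2
    have h4 := cc_union_le (w := w) Cᶜ (insert a t)
    rw [Set.ncard_insert_of_notMem ha] at h4 ⊢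
    omega

theorem Co_insert {C : Set ι} (hsp : cc w Cᶜ = 0) {g : ι} (hg : g ∉ C) :
    Co w (insert g C) ⊆ Co w C := by
  rintro e ⟨he, hc⟩
  rcases he with rfl | he
  · exfalso
    apply hc
    have : (insert e C)ᶜ ∪ {e} = Cᶜ := by
      ext i
      simp only [Set.mem_union, Set.mem_compl_iff, Set.mem_insert_iff, Set.mem_singleton_iff,
        not_or]
      constructor
      · rintro (h | h)
        · exact h.2
        · rw [h]; exact hg
      · intro h
        by_cases hi : i = e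
        · exact Or.inr hi
        · exact Or.inl ⟨hi, h⟩
    rw [this, hsp]
  · refine ⟨he, fun h0 => hc ?_⟩
    have := cc_mono (w := w) (X := (insert g C)ᶜ ∪ {e}) (Y := Cᶜ ∪ {e})
      (Set.union_subset_union_left _ (Set.compl_subset_compl.2 (Set.subset_insert _ _)))
    omega

theorem span_insert' {C : Set ι} (hsp : cc w Cᶜ = 0) (g : ι) : cc w (insert g C)ᶜ = 0 := by
  have := cc_mono (w := w) (X := (insert g C)ᶜ) (Y := Cᶜ)
    (Set.compl_subset_compl.2 (Set.subset_insert _ _))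
  omega

theorem le_ncard_of_span {C : Set ι} (hsp : cc w Cᶜ = 0) : finrank ℝ E ≤ C.ncard := by
  classical
  have h1 := cc_add w Cᶜ
  rw [hsp, compl_compl, zero_add] at h1
  rw [← h1]
  unfold sp
  have h2 := finrank_span_le_card (R := ℝ) (w '' C)
  rw [Set.ncard_eq_toFinset_card']
  refine h2.trans ?_
  rw [Set.toFinset_image]
  exact Finset.card_image_le

/-- one step: at least `3 j q` coloops, `q` of them are covered by one element. -/
theorem one_step {j κ f s q : ℕ} (hF : Fam w j κ f s) (hs : s ≤ κ + f)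
    {C H : Set ι} (hCH : Disjoint C H) (hH : 2 * H.ncard + 5 ≤ κ + f) (hsp : cc w Cᶜ = 0)
    (hq : 1 ≤ q) (hn : 3 * j * q ≤ (Co w C).ncard) :
    ∃ g, g ∉ C ∧ g ∉ H ∧ (Co w (insert g C)).ncard + q ≤ (Co w C).ncard := by
  classical
  obtain ⟨R, hR1, hR2, hR3⟩ := exists_blocks (Z := Co w C) (r := j) (m := 3 * q) (by nlinarith)
  have hdim := hF.dim
  obtain ⟨g, hgC, hgH, hg⟩ := step hF hs hCH hH (by have := le_ncard_of_span hsp; omega)
    (m := 3 * q) (by omega) R (fun i => (hR1 i).trans (Co_sub C)) (fun i => by rw [hR2]; omega)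
    (fun i => by rw [cc_Co hsp (hR1 i), hR2])
  refine ⟨g, hgC, hgH, ?_⟩
  have hex : ∀ i : Fin (3 * q), w g ∉ sp w (C \ R i) → ∃ e ∈ R i, e ∉ Co w (insert g C) := by
    intro i hi
    by_contra hcon
    push Not at hcon
    have h1 := cc_insert_compl hgC ((hR1 i).trans (Co_sub C)) hi
    rw [cc_Co hsp (hR1 i), cc_Co (span_insert' hsp g) hcon] at h1
    omega
  have : Nonempty ι := ⟨g⟩
  choose! e he1 he2 using hex
  have hinj : Set.InjOn e {i | w g ∉ sp w (C \ R i)} := by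
    intro i hi i' hi' h
    by_contra hne
    have h1 := he1 i hi
    have h2 := he1 i' hi'
    rw [← h] at h2
    exact Set.disjoint_left.1 (hR3 i i' hne) h1 h2
  have hsub : e '' {i | w g ∉ sp w (C \ R i)} ⊆ Co w C \ Co w (insert g C) := by
    rintro _ ⟨i, hi, rfl⟩
    exact ⟨hR1 i (he1 i hi), he2 i hi⟩
  have h1 := Set.ncard_le_ncard hsub (Set.toFinite _)
  rw [hinj.ncard_image] at h1
  have h2 := Set.ncard_sdiff_add_ncard_of_subset (Co_insert hsp hgC) (Set.toFinite _)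
  omega

/-- `t` steps. -/
theorem steps {j κ f s q : ℕ} (hF : Fam w j κ f s) (hs : s ≤ κ + f) {H : Set ι}
    (hH : 2 * H.ncard + 5 ≤ κ + f) (hq : 1 ≤ q) : ∀ (t : ℕ) (C : Set ι), Disjoint C H →
    cc w Cᶜ = 0 → (Co w C).ncard ≤ 3 * j * q + q * t →
    ∃ C' : Set ι, C ⊆ C' ∧ Disjoint C' H ∧ cc w C'ᶜ = 0 ∧ (Co w C').ncard ≤ 3 * j * q ∧
      C'.ncard ≤ C.ncard + t := by
  intro t
  induction t with
  | zero =>
    intro C hCH hsp hn
    exact ⟨C, le_rfl, hCH, hsp, by simpa using hn, le_rfl⟩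
  | succ t ih =>
    intro C hCH hsp hn
    by_cases hle : (Co w C).ncard ≤ 3 * j * q
    · exact ⟨C, le_rfl, hCH, hsp, hle, by omega⟩
    · obtain ⟨g, hgC, hgH, hg⟩ := one_step hF hs hCH hH hsp hq (by omega)
      obtain ⟨C', h1, h2, h3, h4, h5⟩ := ih (insert g C) (by
        rw [Set.disjoint_insert_left]; exact ⟨hgH, hCH⟩) (span_insert' hsp g) (by
        have : q * (t + 1) = q * t + q := by ring
        omega)
      refine ⟨C', (Set.subset_insert _ _).trans h1, h2, h3, h4, ?_⟩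
      rw [Set.ncard_insert_of_notMem hgC] at h5
      omega

/-- halving. -/
theorem halvings {j κ f s : ℕ} (hF : Fam w j κ f s) (hs : s ≤ κ + f) {H : Set ι}
    (hH : 2 * H.ncard + 5 ≤ κ + f) : ∀ (L : ℕ) (C : Set ι), Disjoint C H →
    cc w Cᶜ = 0 → (Co w C).ncard ≤ 3 * j * 2 ^ L →
    ∃ C' : Set ι, C ⊆ C' ∧ Disjoint C' H ∧ cc w C'ᶜ = 0 ∧ (Co w C').ncard ≤ 3 * j ∧
      C'.ncard ≤ C.ncard + 3 * j * L := by
  intro L
  induction L with
  | zero =>
    intro C hCH hsp hn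
    exact ⟨C, le_rfl, hCH, hsp, by simpa using hn, by simp⟩
  | succ L ih =>
    intro C hCH hsp hn
    obtain ⟨C₁, h1, h2, h3, h4, h5⟩ := steps hF hs hH (q := 2 ^ L) Nat.one_le_two_pow (3 * j) C
      hCH hsp (by rw [pow_succ] at hn; nlinarith)
    obtain ⟨C', g1, g2, g3, g4, g5⟩ := ih C₁ h2 h3 h4
    refine ⟨C', h1.trans g1, g2, g3, g4, ?_⟩
    have : 3 * j * (L + 1) = 3 * j * L + 3 * j := by ring
    omega

/-- the last coloops, one by one. -/
theorem last {H : Set ι} (hHe : ∀ e, cc w (insert e H) = 0) : ∀ (n : ℕ) (C : Set ι),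
    Disjoint C H → cc w Cᶜ = 0 → (Co w C).ncard ≤ n →
    ∃ C' : Set ι, C ⊆ C' ∧ Disjoint C' H ∧ Co w C' = ∅ ∧ C'.ncard ≤ C.ncard + n := by
  intro n
  induction n with
  | zero =>
    intro C hCH hsp hn
    exact ⟨C, le_rfl, hCH, by
      rwa [Nat.le_zero, Set.ncard_eq_zero (Set.toFinite _)] at hn, le_rfl⟩
  | succ n ih =>
    intro C hCH hsp hn
    by_cases hle : (Co w C).ncard ≤ n
    · obtain ⟨C', h1, h2, h3, h4⟩ := ih C hCH hsp hle
      exact ⟨C', h1, h2, h3, by omega⟩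
    · have hne : (Co w C).Nonempty := by
        rw [← Set.ncard_pos (Set.toFinite _)]; omega
      obtain ⟨e, he⟩ := hne
      -- an element outside `H ∪ {e}` and outside the span of `C \ e`
      have hex : ∃ g, g ∉ insert e H ∧ w g ∉ sp w (C \ {e}) := by
        by_contra hcon
        push Not at hcon
        have h1 : sp w (insert e H)ᶜ = ⊤ := cc_eq_zero_iff.1 (hHe e)
        have h2 : sp w (insert e H)ᶜ ≤ sp w (C \ {e}) := sp_le.2 fun i hi => hcon i hi
        rw [h1, top_le_iff] at h2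
        apply he.2
        rw [cc_eq_zero_iff, Set.compl_union, compl_compl]
        exact h2
      obtain ⟨g, hg1, hg2⟩ := hex
      have hge : g ≠ e := fun h => hg1 (Or.inl h)
      have hgH : g ∉ H := fun h => hg1 (Or.inr h)
      have hgC : g ∉ C := fun h => hg2 (mem_sp ⟨h, hge⟩)
      have h1 := cc_insert_compl hgC (Set.singleton_subset_iff.2 he.1) hg2
      have h2 : cc w (Cᶜ ∪ {e}) = 1 := by
        rw [cc_Co hsp (Set.singleton_subset_iff.2 he), Set.ncard_singleton]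
      have h3 : e ∉ Co w (insert g C) := by
        intro h
        apply h.2
        omega
      have h4 : Co w (insert g C) ⊂ Co w C :=
        ⟨Co_insert hsp hgC, fun h => h3 (h he)⟩
      have h5 := Set.ncard_lt_ncard h4 (Set.toFinite _)
      obtain ⟨C', g1, g2, g3, g4⟩ := ih (insert g C) (by
        rw [Set.disjoint_insert_left]; exact ⟨hgH, hCH⟩) (span_insert' hsp g) (by omega)
      refine ⟨C', (Set.subset_insert _ _).trans g1, g2, g3, ?_⟩
      rw [Set.ncard_insert_of_notMem hgC] at g4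
      omega

/-- **COVER** with logarithmic cost. -/
theorem cover_log {j κ f s L : ℕ} (hF : Fam w j κ f s) (hs : s ≤ κ + f) {C₀ H : Set ι}
    (hCH : Disjoint C₀ H) (hH : 2 * H.ncard + 5 ≤ κ + f) (hsp : cc w C₀ᶜ = 0)
    (hHe : ∀ e, cc w (insert e H) = 0) (hL : κ + j + 1 ≤ 3 * j * 2 ^ L) :
    ∃ C : Set ι, C₀ ⊆ C ∧ Disjoint C H ∧ (∀ e ∈ C, cc w (Cᶜ ∪ {e}) = 0) ∧
      C.ncard ≤ C₀.ncard + 3 * j * (L + 1) := by
  have hdim := hF.dim
  have h0 : (Co w C₀).ncard ≤ 3 * j * 2 ^ L := by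
    have h1 := cc_Co hsp (le_refl (Co w C₀))
    have h2 := cc_add w (C₀ᶜ ∪ Co w C₀)
    omega
  obtain ⟨C₁, h1, h2, h3, h4, h5⟩ := halvings hF hs hH L C₀ hCH hsp h0
  obtain ⟨C, g1, g2, g3, g4⟩ := last hHe (3 * j) C₁ h2 h3 h4
  refine ⟨C, h1.trans g1, g2, ?_, ?_⟩
  · intro e he
    by_contra hcon
    have : e ∈ Co w C := ⟨he, hcon⟩
    rw [g3] at this
    exact this
  · have : 3 * j * (L + 1) = 3 * j * L + 3 * j := by ring
    omega

end H70.LR
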