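import Pool.Agent.H81.LR.Cfun
import Pool.Agent.H81.WK.Quot
import Pool.Agent.H30.EV.Three

/-! [H70 LR Reduce] the reduction of a simple family to the quotient by a maximal fully divisible
subspace, without its zero vectors. -/

set_option linter.unusedSectionVars false

open Module Submodule H15 H81.WK H81.LR

namespace H70.LR

variable {ι : Type*} [Fintype ι] {E : Type*} [AddCommGroup E] [Module ℝ E]
  [FiniteDimensional ℝ E]

/-- a signed vector of a subfamily is a signed vector. -/
theorem svec_of_subtype {v : ι → E} {p : ι → Prop} [Fintype {i // p i}] {X Y : Set {i // p i}}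
    (h : SVec (fun i : {i // p i} => v i) X Y) :
    SVec v (Subtype.val '' X) (Subtype.val '' Y) := by
  classical
  obtain ⟨c, hc0, hc1, hc2⟩ := h
  refine ⟨fun i => if hi : p i then c ⟨i, hi⟩ else 0, ?_, ?_, ?_⟩
  · rw [← hc0]
    have h2 := Finset.sum_subtype (F := (inferInstance : Fintype {i // p i}))
      (Finset.univ.filter p) (by simp)
      (fun j => (if hi : p j then c ⟨j, hi⟩ else 0) • v j) (p := p)
    rw [Finset.sum_filter_of_ne] at h2
    · rw [h2]
      refine Finset.sum_congr rfl fun i _ => ?_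
      simp [i.2]
    · intro x _ hx
      by_contra hxJ
      exact hx (by simp [hxJ])
  · intro i
    by_cases hi : p i
    · simp only [hi, dif_pos, hc1]
      constructor
      · intro h; exact ⟨_, h, rfl⟩
      · rintro ⟨j, hj, rfl⟩; exact hj
    · simp only [hi, dif_neg, lt_irrefl, false_iff, not_false_eq_true]
      rintro ⟨j, hj, rfl⟩
      exact hi j.2
  · intro i
    by_cases hi : p i
    · simp only [hi, dif_pos, hc2]
      constructor
      · intro h; exact ⟨_, h, rfl⟩
      · rintro ⟨j, hj, rfl⟩; exact hj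
    · simp only [hi, dif_neg, lt_irrefl, false_iff, not_false_eq_true]
      rintro ⟨j, hj, rfl⟩
      exact hi j.2

theorem sp_subtype {v : ι → E} {p : ι → Prop} (X : Set {i // p i}) :
    sp (fun i : {i // p i} => v i) X = sp v (Subtype.val '' X) := by
  unfold sp
  rw [Set.image_image]

theorem bdd_subtype {v : ι → E} {p : ι → Prop} [Fintype {i // p i}] {m : ℕ} (hb : Bdd v m) :
    Bdd (fun i : {i // p i} => v i) m := by
  intro X Y hXY
  have h1 := hb _ _ (svec_of_subtype hXY)
  unfold LL at h1 ⊢
  rwa [← sp_subtype, ← sp_subtype] at h1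

theorem fullyDiv_subtype {v : ι → E} {p : ι → Prop} [Fintype {i // p i}] {G : Submodule ℝ E}
    (h : FullyDiv (fun i : {i // p i} => v i) G) : FullyDiv v G := by
  obtain ⟨X, Y, hXY, hX, hY⟩ := h
  exact ⟨_, _, svec_of_subtype hXY, by rw [← sp_subtype, hX], by rw [← sp_subtype, hY]⟩

/-- fully divisible subspaces of the quotient by a fully divisible subspace lift. -/
theorem fullyDiv_lift {v : ι → E} {F : Submodule ℝ E} (hF : FullyDiv v F)
    {G : Submodule ℝ (E ⧸ F)} (hG : FullyDiv (F.mkQ ∘ v) G) : FullyDiv v (G.comap F.mkQ) := by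
  obtain ⟨X, Y, hXY, hX, hY⟩ := hF
  obtain ⟨X', Y', ⟨c, hc0, hc1, hc2⟩, hX', hY'⟩ := hG
  have hU : sp v (X ∪ Y) = F := by rw [sp_union, hX, hY, sup_idem]
  have hc : ∑ i, c i • v i ∈ sp v (X ∪ Y) := by
    rw [hU, ← Submodule.Quotient.mk_eq_zero, ← Submodule.mkQ_apply, map_sum, ← hc0]
    exact Finset.sum_congr rfl fun i _ => by rw [map_smul]; rfl
  have hS := hXY.ext c hc
  -- the span of one side
  have key : ∀ A B A' : Set ι, sp v A = F → sp v B = F → sp (F.mkQ ∘ v) A' = G →
      sp v (A ∪ {i | i ∈ A' ∧ i ∉ B}) = G.comap F.mkQ := by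
    intro A B A' hA hB hA'
    have h1 : sp v (A ∪ {i | i ∈ A' ∧ i ∉ B}) = F ⊔ sp v A' := by
      rw [sp_union, hA]
      apply le_antisymm
      · exact sup_le_sup le_rfl (sp_mono fun i hi => hi.1)
      · refine sup_le le_sup_left (sp_le.2 fun i hi => ?_)
        by_cases hiB : i ∈ B
        · exact Submodule.mem_sup_left (hB ▸ mem_sp hiB)
        · exact Submodule.mem_sup_right (mem_sp ⟨hi, hiB⟩)
    have h2 : (sp v A').map F.mkQ = G := by
      rw [← hA']
      unfold sp
      rw [Submodule.map_span, Set.image_comp]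
    rw [h1, ← h2, Submodule.comap_map_eq, Submodule.ker_mkQ, sup_comm]
  refine ⟨_, _, hS, ?_, ?_⟩
  · have := key X Y X' hX hY hX'
    rw [← this]
    congr 2
    ext i
    simp only [Set.mem_ofPred_eq, hc1]
  · have := key Y X Y' hY hX hY'
    rw [← this]
    congr 2
    ext i
    simp only [Set.mem_ofPred_eq, hc2]

theorem fullyDiv_bot (v : ι → E) : FullyDiv v ⊥ := by
  refine ⟨∅, ∅, svec_empty, ?_, ?_⟩ <;> simp [sp]

/-- a fully divisible subspace of maximal dimension. -/
theorem exists_maxDiv (v : ι → E) : ∃ F : Submodule ℝ E, FullyDiv v F ∧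
    ∀ G : Submodule ℝ E, FullyDiv v G → finrank ℝ G ≤ finrank ℝ F := by
  classical
  let P : ℕ → Prop := fun n => ∃ F : Submodule ℝ E, FullyDiv v F ∧ finrank ℝ F = n
  have hbd : ∀ n, P n → n ≤ finrank ℝ E := by
    rintro n ⟨F, -, rfl⟩
    exact Submodule.finrank_le F
  have h0 : P 0 := ⟨⊥, fullyDiv_bot v, finrank_bot ℝ E⟩
  obtain ⟨F, hF, hr⟩ := Nat.findGreatest_spec (P := P) (hbd 0 h0) h0
  refine ⟨F, hF, fun G hG => ?_⟩
  rw [hr]
  exact Nat.le_findGreatest (hbd _ ⟨G, hG, rfl⟩) ⟨G, hG, rfl⟩

theorem fullyDiv_finrank_le {v : ι → E} {F : Submodule ℝ E} (hF : FullyDiv v F) :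
    finrank ℝ F ≤ {i | v i ∈ F}.ncard := by
  classical
  obtain ⟨X, Y, -, hX, -⟩ := hF
  have h1 : finrank ℝ (sp v X) ≤ X.ncard := by
    unfold sp
    have h2 := finrank_span_le_card (R := ℝ) (v '' X)
    rw [Set.ncard_eq_toFinset_card' ]
    refine h2.trans ?_
    rw [Set.toFinset_image]
    exact Finset.card_image_le
  rw [hX] at h1
  exact h1.trans (Set.ncard_le_ncard (fun i hi => by
    change v i ∈ F
    rw [← hX]; exact mem_sp hi) (Set.toFinite _))

open scoped Classical in
/-- **reduction**. -/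
theorem exists_tfam {v : ι → E} {j k : ℕ} (hF : Fam v j k 0 k) (hj : 1 ≤ j) (h0 : ∀ i, v i ≠ 0)
    (hnp : ∀ G : Submodule ℝ E, finrank ℝ G ≤ 1 → {i | v i ∈ G}.ncard ≤ 1) (hb : Bdd v k) :
    ∃ (F : Submodule ℝ E) (s : ℕ), finrank ℝ F ≤ k ∧
      TFam (fun i : {i // v i ∉ F} => F.mkQ (v i)) j (k - finrank ℝ F) (finrank ℝ F) s := by
  classical
  obtain ⟨F, hFd, hmax⟩ := exists_maxDiv v
  have hFk : finrank ℝ F ≤ k := by
    obtain ⟨X, Y, hXY, hX, hY⟩ := hFd
    have := hb X Y hXY
    unfold LL at this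
    rwa [hX, hY, inf_idem] at this
  have hQ := quot_fam hF F hFk
  -- counting
  have hcnt : ∀ G : Submodule ℝ (E ⧸ F),
      {i : {i // v i ∉ F} | F.mkQ (v i) ∈ G}.ncard + {i | v i ∈ F}.ncard =
        {i | (F.mkQ ∘ v) i ∈ G}.ncard := by
    intro G
    have h1 : {i | (F.mkQ ∘ v) i ∈ G} =
        Subtype.val '' {i : {i // v i ∉ F} | F.mkQ (v i) ∈ G} ∪ {i | v i ∈ F} := by
      ext i
      simp only [Set.mem_ofPred_eq, Function.comp_apply, Set.mem_union, Set.mem_image,
        Subtype.exists, exists_and_right, exists_eq_right]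
      constructor
      · intro h
        by_cases hi : v i ∈ F
        · exact Or.inr hi
        · exact Or.inl ⟨hi, h⟩
      · rintro (⟨hi, h⟩ | h)
        · exact h
        · have : F.mkQ (v i) = 0 := by
            rw [← LinearMap.mem_ker, Submodule.ker_mkQ]; exact h
          rw [this]; exact zero_mem _
    rw [h1, Set.ncard_union_eq ?_ (Set.toFinite _) (Set.toFinite _),
      Set.ncard_image_of_injective _ Subtype.val_injective]
    rw [Set.disjoint_left]
    rintro i ⟨⟨a, ha⟩, -, rfl⟩ h
    exact ha h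
  have hFc : {i | v i ∈ F}.ncard ≤ k + finrank ℝ F := hF.fc F (by omega)
  have hcard := hcnt ⊤
  have e1 : {i : {i // v i ∉ F} | F.mkQ (v i) ∈ (⊤ : Submodule ℝ (E ⧸ F))} = Set.univ := by
    ext i; simp
  have e2 : {i | (F.mkQ ∘ v) i ∈ (⊤ : Submodule ℝ (E ⧸ F))} = Set.univ := by
    ext i; simp
  rw [e1, e2, Set.ncard_univ, Set.ncard_univ, Nat.card_eq_fintype_card,
    Nat.card_eq_fintype_card] at hcard
  have hQc := hQ.card
  have hQd := hQ.dim
  refine ⟨F, k + finrank ℝ F - {i | v i ∈ F}.ncard, hFk, ?_⟩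
  refine
    { fam := ?_
      bdd := ?_
      three := ?_
      hf := ?_
      hs := ?_
      hj := hj }
  · refine ⟨hQd, by omega, ?_, ?_⟩
    · rintro ⟨i, hi⟩
      have h1 := hQ.col i
      rw [eq_top_iff, ← h1]
      refine sp_le.2 fun l hl => ?_
      by_cases hlF : v l ∈ F
      · have : (F.mkQ ∘ v) l = 0 := by
          change F.mkQ (v l) = 0
          rw [← LinearMap.mem_ker, Submodule.ker_mkQ]; exact hlF
        rw [this]; exact zero_mem _
      · refine subset_span ⟨⟨l, hlF⟩, ?_, rfl⟩
        intro h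
        apply hl
        exact congrArg Subtype.val h
    · intro G hG
      have h1 := hQ.fc G hG
      have h2 := hcnt G
      omega
  · have h1 : Bdd (F.mkQ ∘ v) (k - finrank ℝ F) := by
      intro X' Y' h'
      have := hFd.bdd hb h'
      omega
    exact bdd_subtype (v := F.mkQ ∘ v) (p := fun i => v i ∉ F) h1
  · intro G
    by_contra hcon
    push Not at hcon
    obtain ⟨G', -, hG', hc⟩ := H30.EV.exists_full3 (fun i : {i // v i ∉ F} => F.mkQ (v i)) G
    have h1 : FullyDiv v (G'.comap F.mkQ) :=
      fullyDiv_lift hFd (fullyDiv_subtype (v := F.mkQ ∘ v) (p := fun i => v i ∉ F) hG')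
    have h2 := hmax _ h1
    -- the dimension of the lift
    have h3 : finrank ℝ (G'.comap F.mkQ : Submodule ℝ E) = finrank ℝ G' + finrank ℝ F := by
      have h1 := LinearMap.finrank_range_add_finrank_ker (F.mkQ.domRestrict (G'.comap F.mkQ))
      have h2 : LinearMap.range (F.mkQ.domRestrict (G'.comap F.mkQ)) = G' := by
        rw [LinearMap.range_domRestrict, Submodule.map_comap_eq_of_surjective
          (Submodule.mkQ_surjective F)]
      have hle : F ≤ G'.comap F.mkQ := by
        intro x hx
        have : F.mkQ x = 0 := by rw [← LinearMap.mem_ker, Submodule.ker_mkQ]; exact hx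
        rw [Submodule.mem_comap, this]
        exact zero_mem _
      have h3 : finrank ℝ (LinearMap.ker (F.mkQ.domRestrict (G'.comap F.mkQ))) = finrank ℝ F := by
        have h4 : LinearMap.ker (F.mkQ.domRestrict (G'.comap F.mkQ)) =
            F.comap (G'.comap F.mkQ).subtype := by
          ext x
          rw [LinearMap.mem_ker, Submodule.mem_comap, LinearMap.domRestrict_apply,
            ← LinearMap.mem_ker, Submodule.ker_mkQ]
          rfl
        rw [h4]
        exact (Submodule.comapSubtypeEquivOfLe hle).finrank_eq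
      rw [h2, h3] at h1
      omega
    have h4 : finrank ℝ G' = 0 := by omega
    rw [finrank_eq_zero] at h4
    rw [h4] at hc
    have h5 : {i : {i // v i ∉ F} | F.mkQ (v i) ∈ (⊥ : Submodule ℝ (E ⧸ F))} = ∅ := by
      ext ⟨i, hi⟩
      simp only [Set.mem_ofPred_eq, Submodule.mem_bot, Set.mem_empty_iff_false, iff_false]
      intro h
      apply hi
      rwa [← LinearMap.mem_ker, Submodule.ker_mkQ] at h
    rw [h5, Set.ncard_empty, finrank_bot] at hc
    omega
  · by_cases hz : finrank ℝ F = 0
    · left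
      refine ⟨hz, ?_⟩
      have h1 : {i | v i ∈ F} = ∅ := by
        rw [finrank_eq_zero] at hz
        ext i
        simp only [Set.mem_ofPred_eq, Set.mem_empty_iff_false, iff_false, hz, Submodule.mem_bot]
        exact h0 i
      rw [h1, Set.ncard_empty, hz]
      omega
    · right
      by_contra hcon
      have h1 := hnp F (by omega)
      obtain ⟨X, Y, hXY, hX, hY⟩ := hFd
      -- both sides are nonempty and disjoint
      have hXne : X.Nonempty := by
        rw [Set.nonempty_iff_ne_empty]
        rintro rfl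
        apply hz
        rw [← hX]
        unfold sp
        rw [Set.image_empty, span_empty, finrank_bot]
      have hYne : Y.Nonempty := by
        rw [Set.nonempty_iff_ne_empty]
        rintro rfl
        apply hz
        rw [← hY]
        unfold sp
        rw [Set.image_empty, span_empty, finrank_bot]
      obtain ⟨x, hx⟩ := hXne
      obtain ⟨y, hy⟩ := hYne
      have hxy : x ≠ y := fun h => (Set.disjoint_left.1 hXY.disjoint) hx (h ▸ hy)
      have h2 : ({x, y} : Set ι) ⊆ {i | v i ∈ F} := by
        rintro i (rfl | rfl)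
        · change v i ∈ F
          rw [← hX]; exact mem_sp hx
        · change v i ∈ F
          rw [← hY]; exact mem_sp hy
      have h3 := Set.ncard_le_ncard h2 (Set.toFinite _)
      rw [Set.ncard_pair hxy] at h3
      omega
  · have h1 := fullyDiv_finrank_le hFd
    omega

end H70.LR
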